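import Pool.Agent.H50En.Defs

namespace Pool.Agent.H42En

open Pool.Agent.H50En Real Finset

variable {V : Type} [DecidableEq V]

/-- G: realisation of the pyramid. -/
theorem realise {z : Sym2 V → ℝ} {s : Finset V} {a : V} (ha : a ∈ s) {n : ℕ} (hm : #s = n + 1)
    (hn : 1 ≤ n) {t : ℝ} (ht : 0 < 1 / 2 + n * (t - 1 / 2))
    (h1 : ∀ x ∈ s, ∀ y ∈ s, x ≠ a → y ≠ a → x ≠ y → z s(x, y) = 1)
    (h2 : ∀ x ∈ s, x ≠ a → z s(a, x) = t) :
    ∃ p : s → EuclideanSpace ℝ (Fin n), AffineIndependent ℝ p ∧
      ∀ a b : s, a ≠ b → Dist.dist (p a) (p b) ^ 2 = z s(a.1, b.1) := by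
  classical
  have hcard : #(s.erase a) = n := by rw [card_erase_of_mem ha, hm]; rfl
  let e : s.erase a ≃ Fin n := Finset.equivFinOfCardEq hcard
  -- index of a base vertex
  have hn0 : 0 < n := hn
  let idx : s → Fin n := fun x => if h : x.1 ∈ s.erase a then e ⟨x.1, h⟩ else ⟨0, hn0⟩
  have hidx : ∀ x y : s, x.1 ≠ a → y.1 ≠ a → idx x = idx y → x = y := by
    intro x y hx hy hxy
    have hx' : x.1 ∈ s.erase a := mem_erase.2 ⟨hx, x.2⟩
    have hy' : y.1 ∈ s.erase a := mem_erase.2 ⟨hy, y.2⟩
    simp only [idx, dif_pos hx', dif_pos hy'] at hxy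
    have := e.injective hxy
    exact Subtype.ext (Subtype.mk.inj this)
  set E : ℝ := 1 / 2 + n * (t - 1 / 2) with hE
  set al : ℝ := (√2 + 2 * √E) / (2 * n) with hal
  have hnR : (0 : ℝ) < n := by exact_mod_cast hn0
  have h22 : √2 ^ 2 = 2 := Real.sq_sqrt (by norm_num)
  have hEE : √E ^ 2 = E := Real.sq_sqrt ht.le
  have hEpos : 0 < √E := Real.sqrt_pos.2 ht
  have h2pos : 0 < √2 := Real.sqrt_pos.2 (by norm_num)
  have hnal : n * al = √2 / 2 + √E := by
    rw [hal]; field_simp
  let r : ℝ := √2 / 2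
  have hr2 : r ^ 2 = 1 / 2 := by
    simp only [r, div_pow, h22]; norm_num
  let p : s → EuclideanSpace ℝ (Fin n) := fun x =>
    WithLp.toLp 2 (if x.1 = a then fun _ => al else fun j => if j = idx x then r else 0)
  have hpa : ∀ x : s, x.1 = a → ∀ j, p x j = al := by
    intro x hx j
    simp [p, hx]
  have hpb : ∀ x : s, x.1 ≠ a → ∀ j, p x j = if j = idx x then r else 0 := by
    intro x hx j
    simp [p, hx]
  -- distances
  have hd2 : ∀ x y : s, Dist.dist (p x) (p y) ^ 2 = ∑ j, (p x j - p y j) ^ 2 := by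
    intro x y
    rw [EuclideanSpace.dist_eq, Real.sq_sqrt (Finset.sum_nonneg fun j _ => sq_nonneg _)]
    refine Finset.sum_congr rfl fun j _ => ?_
    rw [Real.dist_eq, sq_abs]
  have hbase : ∀ x y : s, x.1 ≠ a → y.1 ≠ a → x ≠ y → Dist.dist (p x) (p y) ^ 2 = 1 := by
    intro x y hx hy hxy
    rw [hd2]
    have hne : idx x ≠ idx y := fun h => hxy (hidx x y hx hy h)
    have : ∀ j, (p x j - p y j) ^ 2 = (if j = idx x then (1 / 2 : ℝ) else 0) +
        (if j = idx y then (1 / 2 : ℝ) else 0) := by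
      intro j
      rw [hpb x hx, hpb y hy]
      by_cases h1 : j = idx x
      · have h2 : j ≠ idx y := fun h => hne (h1.symm.trans h)
        rw [if_pos h1, if_neg h2, if_pos h1, if_neg h2, sub_zero, hr2, add_zero]
      · by_cases h2 : j = idx y
        · rw [if_neg h1, if_pos h2, if_neg h1, if_pos h2, zero_sub, neg_sq, hr2, zero_add]
        · rw [if_neg h1, if_neg h2, if_neg h1, if_neg h2]; norm_num
    simp only [this, Finset.sum_add_distrib, Finset.sum_ite_eq', Finset.mem_univ, if_true]
    norm_num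
  have hlat : ∀ x y : s, x.1 = a → y.1 ≠ a → Dist.dist (p x) (p y) ^ 2 = t := by
    intro x y hx hy
    rw [hd2]
    have : ∀ j, (p x j - p y j) ^ 2 = al ^ 2 +
        (if j = idx y then (r ^ 2 - 2 * al * r : ℝ) else 0) := by
      intro j
      rw [hpb y hy, hpa x hx]
      by_cases h2 : j = idx y
      · rw [if_pos h2, if_pos h2]; ring
      · rw [if_neg h2, if_neg h2]; ring
    simp only [this, Finset.sum_add_distrib, Finset.sum_ite_eq', Finset.mem_univ, if_true,
      Finset.sum_const, Finset.card_univ, Fintype.card_fin, nsmul_eq_mul]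
    rw [hr2]
    have hq : n * (n * al ^ 2 + (1 / 2 - 2 * al * r)) = n * t := by
      have : n * (n * al ^ 2 + (1 / 2 - 2 * al * r)) = (n * al) ^ 2 + n / 2 - 2 * (n * al) * r := by
        ring
      rw [this, hnal]
      simp only [r]
      have e1 : (√2 / 2 + √E) ^ 2 + (n : ℝ) / 2 - 2 * (√2 / 2 + √E) * (√2 / 2) =
          √E ^ 2 - √2 ^ 2 / 4 + n / 2 := by ring
      rw [e1, hEE, h22, hE]
      ring
    exact mul_left_cancel₀ hnR.ne' hq
  refine ⟨p, ?_, ?_⟩
  · rw [affineIndependent_iff]
    intro S w hw0 hw1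
    -- coordinates
    have hco : ∀ j, ∑ x ∈ S, w x * p x j = 0 := by
      intro j
      have := congrArg (fun v : EuclideanSpace ℝ (Fin n) => v j) hw1
      simpa using this
    have hsum : ∀ x : s, ∑ j, p x j = r + (if x.1 = a then √E else 0) := by
      intro x
      by_cases hx : x.1 = a
      · rw [if_pos hx]
        simp only [hpa x hx, Finset.sum_const, Finset.card_univ, Fintype.card_fin, nsmul_eq_mul]
        exact hnal
      · rw [if_neg hx]
        simp only [hpb x hx, Finset.sum_ite_eq', Finset.mem_univ, if_true, add_zero]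
    have hA : ∑ x ∈ S, w x * (if x.1 = a then √E else 0) = 0 := by
      have h3 : ∑ j, ∑ x ∈ S, w x * p x j = 0 := Finset.sum_eq_zero fun j _ => hco j
      rw [Finset.sum_comm] at h3
      simp only [← Finset.mul_sum, hsum, mul_add, Finset.sum_add_distrib, ← Finset.sum_mul] at h3
      rw [hw0, zero_mul, zero_add] at h3
      exact h3
    have hwa : ∀ x ∈ S, x.1 = a → w x = 0 := by
      intro x hx hxa
      rw [Finset.sum_eq_single x] at hA
      · rw [if_pos hxa] at hA
        rcases mul_eq_zero.1 hA with h | h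
        · exact h
        · exact absurd h hEpos.ne'
      · intro y _ hyx
        rw [if_neg (fun h => hyx (Subtype.ext (h.trans hxa.symm))), mul_zero]
      · intro h; exact absurd hx h
    intro x hx
    by_cases hxa : x.1 = a
    · exact hwa x hx hxa
    · have h4 := hco (idx x)
      rw [Finset.sum_eq_single x] at h4
      · rw [hpb x hxa, if_pos rfl] at h4
        rcases mul_eq_zero.1 h4 with h | h
        · exact h
        · exact absurd h (by simp only [r]; positivity)
      · intro y hy hyx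
        by_cases hya : y.1 = a
        · rw [hwa y hy hya, zero_mul]
        · rw [hpb y hya, if_neg (fun h => hyx (hidx y x hya hxa h.symm)), mul_zero]
      · intro h; exact absurd hx h
  · intro x y hxy
    by_cases hxa : x.1 = a
    · have hya : y.1 ≠ a := fun h => hxy (Subtype.ext (hxa.trans h.symm))
      rw [hlat x y hxa hya, hxa, h2 y.1 y.2 hya]
    · by_cases hya : y.1 = a
      · rw [_root_.dist_comm, hlat y x hya hxa, hya, Sym2.eq_swap, h2 x.1 x.2 hxa]
      · rw [hbase x y hxa hya hxy, h1 x.1 x.2 y.1 y.2 hxa hya (fun h => hxy (Subtype.ext h))]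

end Pool.Agent.H42En
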